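import Mathlib
import Pool.Agent.H3.BI.Stm2
import Pool.Agent.H61.BD.PAR

/-!
# Part KER of project BD: a kernel which is subharmonic except at the origin
-/

set_option autoImplicit false

open scoped ENNReal
open Finset

namespace Pool.Agent.H90.BD

open Pool.Agent.H3.BI

/-- the shifted kernel is subharmonic -/
theorem kk_sub (hK : S_KDI) {d : ℕ} (hd : 3 ≤ d) : ∃ b : ℝ, 1 ≤ b ∧ ∀ x : Site d,
    2 * b + 14 ≤ nsq x →
    Pool.Agent.H61.BD.kk d (-b) x ≤ PP (Pool.Agent.H61.BD.kk d (-b)) x := by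
  obtain ⟨C, hC, h⟩ := hK d (bt d) hd (Pool.Agent.H61.BD.bt_pos hd)
  have hb := Pool.Agent.H61.BD.bt_pos hd
  refine ⟨C / bt d + 1, ?_, ?_⟩
  · have : 0 ≤ C / bt d := by positivity
    linarith
  intro x hx
  set b : ℝ := C / bt d + 1 with hbdef
  have hb1 : 1 ≤ b := by
    have : 0 ≤ C / bt d := by positivity
    rw [hbdef]
    linarith
  have hqr : qr (fun i => (x i : ℝ)) = nsq x := rfl
  have hn := nsq_nonneg x
  have h1 := h (-b) (fun i => (x i : ℝ)) (by rw [hqr]; linarith) (by
    rw [hqr]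
    have h2 := Real.sq_sqrt hn
    nlinarith [sq_nonneg (Real.sqrt (nsq x) - 4)]) (by rw [hqr]; linarith)
  rw [hqr, ← Pool.Agent.H61.BD.PP_eq_PR] at h1
  have h2 : bt d * (d - 2 - 2 * bt d) / d = 0 := by
    unfold bt
    ring
  have hd' : (d : ℝ) ≠ 0 := by
    have : 0 < d := by omega
    exact_mod_cast this.ne'
  have h3 : 2 * bt d * (bt d + 1) * (-b) / d = -(bt d * b) := by
    have : bt d + 1 = d / 2 := by unfold bt; ring
    rw [this]
    field_simp
  rw [h2, h3, zero_mul, zero_add] at h1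
  have h4 := (abs_le.1 h1).2
  have h5 : 0 < (nsq x + -b) ^ (-bt d - 2) :=
    Real.rpow_pos_of_pos (by linarith) _
  have h6 : Pool.Agent.H61.BD.kk d (-b) x = (nsq x + -b) ^ (-bt d) := rfl
  rw [← h6] at h4
  have h7 : C ≤ bt d * b := by
    rw [hbdef, mul_add, mul_div_cancel₀ _ hb.ne']
    linarith
  nlinarith

/-- squared norm of a neighbour -/
theorem nsq_nb {d : ℕ} (x : Site d) (e : Dir d) : nsq x ≤ 2 * nsq (x + uvec e) + 2 := by
  have h1 : nsq x = (x e.1 : ℝ) ^ 2 + ∑ i ∈ Finset.univ.erase e.1, (x i : ℝ) ^ 2 := by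
    unfold nsq
    rw [← Finset.add_sum_erase _ _ (Finset.mem_univ e.1)]
  have h2 : nsq (x + uvec e) = ((x e.1 : ℝ) + (if e.2 then 1 else -1)) ^ 2 +
      ∑ i ∈ Finset.univ.erase e.1, (x i : ℝ) ^ 2 := by
    unfold nsq
    rw [← Finset.add_sum_erase _ _ (Finset.mem_univ e.1)]
    congr 1
    · rw [Pi.add_apply]
      unfold uvec
      rw [Pi.single_eq_same]
      split_ifs <;> push_cast <;> ring
    · apply Finset.sum_congr rfl
      intro i hi
      rw [Pi.add_apply]
      unfold uvec
      rw [Pi.single_eq_of_ne (Finset.ne_of_mem_erase hi), add_zero]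
  have h3 : 0 ≤ ∑ i ∈ Finset.univ.erase e.1, (x i : ℝ) ^ 2 :=
    Finset.sum_nonneg fun _ _ => sq_nonneg _
  rw [h1, h2]
  split_ifs
  · nlinarith [sq_nonneg ((x e.1 : ℝ) + 2)]
  · nlinarith [sq_nonneg ((x e.1 : ℝ) - 2)]

/-- a neighbour which is nearer to the origin -/
theorem l1_step {d : ℕ} (x : Site d) (hx : x ≠ 0) : ∃ e : Dir d, l1 (x + uvec e) + 1 = l1 x := by
  obtain ⟨i, hi⟩ := Function.ne_iff.1 hx
  have hi' : x i ≠ 0 := hi
  refine ⟨(i, decide (x i < 0)), ?_⟩
  unfold l1
  rw [← Finset.add_sum_erase Finset.univ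
      (fun j => ((x + uvec (i, decide (x i < 0))) j).natAbs) (Finset.mem_univ i),
    ← Finset.add_sum_erase Finset.univ (fun j => (x j).natAbs) (Finset.mem_univ i)]
  have h1 : ∑ j ∈ Finset.univ.erase i, ((x + uvec (i, decide (x i < 0))) j).natAbs =
      ∑ j ∈ Finset.univ.erase i, (x j).natAbs := by
    apply Finset.sum_congr rfl
    intro j hj
    rw [Pi.add_apply]
    unfold uvec
    rw [Pi.single_eq_of_ne (Finset.ne_of_mem_erase hj), add_zero]
  rw [h1]
  have h2 : ((x + uvec (i, decide (x i < 0))) i).natAbs + 1 = (x i).natAbs := by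
    rw [Pi.add_apply]
    unfold uvec
    rw [Pi.single_eq_same]
    by_cases h : x i < 0
    · simp only [h, decide_true, if_true]
      omega
    · simp only [h, decide_false]
      rw [if_neg (by decide)]
      omega
  omega

theorem l1_le_nsq {d : ℕ} (x : Site d) : (l1 x : ℝ) ≤ nsq x := by
  unfold l1 nsq
  push_cast
  apply Finset.sum_le_sum
  intro i _
  have h1 : (|x i| : ℤ) ≤ (x i) ^ 2 := by
    rw [← sq_abs]
    have := abs_nonneg (x i)
    rcases eq_or_lt_of_le this with h | h
    · rw [← h]; norm_num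
    · nlinarith
  have h2 : (((x i).natAbs : ℤ) : ℝ) ≤ (((x i) ^ 2 : ℤ) : ℝ) := by
    rw [Int.natCast_natAbs]
    exact_mod_cast h1
  push_cast at h2
  rw [Nat.cast_natAbs, Int.cast_abs]
  exact h2

theorem one_le_nsq {d : ℕ} (x : Site d) (hx : x ≠ 0) : 1 ≤ nsq x := by
  obtain ⟨i, hi⟩ := Function.ne_iff.1 hx
  have hi' : x i ≠ 0 := hi
  have h1 : (1 : ℝ) ≤ (x i : ℝ) ^ 2 := by
    have : (1 : ℤ) ≤ (x i) ^ 2 := by
      have := sq_nonneg (x i)
      have h2 : (x i) ^ 2 ≠ 0 := pow_ne_zero 2 hi'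
      omega
    exact_mod_cast this
  exact h1.trans (Finset.single_le_sum (f := fun i => (x i : ℝ) ^ 2)
      (fun _ _ => sq_nonneg _) (Finset.mem_univ i))

theorem PP_ge_single {d : ℕ} {f : Site d → ℝ} (hf : ∀ x, 0 ≤ f x) (x : Site d) (e : Dir d) :
    f (x + uvec e) / (2 * d) ≤ PP f x := by
  unfold PP
  apply div_le_div_of_nonneg_right _ (by positivity)
  exact Finset.single_le_sum (f := fun e => f (x + uvec e)) (fun _ _ => hf _) (Finset.mem_univ e)

theorem pow_bound {β b s : ℝ} (hβ : 0 < β) (hb : 1 ≤ b) (hs : 2 * b ≤ s) :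
    (s + -b) ^ (-β) ≤ s ^ (-β) + 2 * β * Real.exp β * b * s ^ (-β - 1) := by
  have hs0 : 0 < s := by linarith
  have hsb : 0 < s + -b := by linarith
  have h1 : s / (s + -b) ≤ 1 + 2 * b / s := by
    rw [div_le_iff₀ hsb]
    have h2 : (1 + 2 * b / s) * (s + -b) = s + b * (s - 2 * b) / s := by
      field_simp
      ring
    rw [h2]
    have : 0 ≤ b * (s - 2 * b) / s := by
      apply div_nonneg _ hs0.le
      apply mul_nonneg <;> linarith
    linarith
  have h2 : 1 + 2 * b / s ≤ Real.exp (2 * b / s) := by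
    have := Real.add_one_le_exp (2 * b / s)
    linarith
  have h3 : (s / (s + -b)) ^ β ≤ Real.exp (β * (2 * b / s)) := by
    calc (s / (s + -b)) ^ β ≤ (Real.exp (2 * b / s)) ^ β :=
          Real.rpow_le_rpow (by positivity) (h1.trans h2) hβ.le
      _ = Real.exp (β * (2 * b / s)) := by
          rw [← Real.exp_mul, mul_comm]
  set t : ℝ := β * (2 * b / s) with ht
  have ht0 : 0 ≤ t := by positivity
  have htβ : t ≤ β := by
    rw [ht]
    have : 2 * b / s ≤ 1 := by rw [div_le_one hs0]; exact hs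
    nlinarith
  have h4 : Real.exp t ≤ 1 + t * Real.exp t := by
    have h5 := Real.add_one_le_exp (-t)
    have h6 : Real.exp t * Real.exp (-t) = 1 := by
      rw [← Real.exp_add]; simp
    have h7 := Real.exp_pos t
    nlinarith
  have h5 : Real.exp t ≤ 1 + t * Real.exp β := by
    have : Real.exp t ≤ Real.exp β := Real.exp_le_exp.2 htβ
    nlinarith
  have h6 : (s + -b) ^ (-β) = s ^ (-β) * (s / (s + -b)) ^ β := by
    rw [Real.div_rpow hs0.le hsb.le, Real.rpow_neg hs0.le, Real.rpow_neg hsb.le]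
    have : s ^ β ≠ 0 := (Real.rpow_pos_of_pos hs0 _).ne'
    field_simp
  have h7 : s ^ (-β - 1) = s ^ (-β) / s := by
    rw [Real.rpow_sub hs0, Real.rpow_one]
  rw [h6, h7]
  have h8 : 0 < s ^ (-β) := Real.rpow_pos_of_pos hs0 _
  calc s ^ (-β) * (s / (s + -b)) ^ β ≤ s ^ (-β) * (1 + t * Real.exp β) :=
        mul_le_mul_of_nonneg_left (h3.trans h5) h8.le
    _ = s ^ (-β) + 2 * β * Real.exp β * b * (s ^ (-β) / s) := by
        rw [ht]
        field_simp

theorem t_KER : S_KER := by
  classical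
  intro hK d hd
  obtain ⟨b, hb, hsub⟩ := kk_sub hK hd
  have hβ := Pool.Agent.H61.BD.bt_pos hd
  have hd3 : (3 : ℝ) ≤ d := by exact_mod_cast hd
  set n0 : ℝ := 2 * b + 14 with hn0
  set n1 : ℝ := 2 * n0 + 2 with hn1
  obtain ⟨m0, hm0⟩ := exists_nat_ge n1
  set A : ℝ := 2 * d with hA
  have hA6 : 6 ≤ A := by rw [hA]; linarith
  have hA0 : 0 < A := by linarith
  set M : ℝ := A ^ m0 with hM
  have hM1 : 1 ≤ M := one_le_pow₀ (by linarith)
  set k1 : Site d → ℝ := fun x => if n0 ≤ nsq x then (nsq x + -b) ^ (-bt d) else 0 with hk1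
  set k2 : Site d → ℝ := fun x => M * (A ^ (l1 x))⁻¹ with hk2
  have hk1n : ∀ x, 0 ≤ k1 x := by
    intro x
    rw [hk1]
    dsimp only
    split_ifs with h
    · exact Real.rpow_nonneg (by linarith) _
    · exact le_rfl
  have hk1le : ∀ x, k1 x ≤ 1 := by
    intro x
    rw [hk1]
    dsimp only
    split_ifs with h
    · exact Real.rpow_le_one_of_one_le_of_nonpos (by linarith) (by linarith)
    · exact zero_le_one
  have hk2n : ∀ x, 0 < k2 x := by
    intro x
    rw [hk2]
    dsimp only
    positivity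
  have hk2le : ∀ x, k2 x ≤ M := by
    intro x
    rw [hk2]
    dsimp only
    have h1 : 1 ≤ A ^ (l1 x) := one_le_pow₀ (by linarith)
    have h2 : (A ^ (l1 x))⁻¹ ≤ 1 := inv_le_one_of_one_le₀ h1
    nlinarith
  have hk2big : ∀ x, nsq x ≤ n1 → 1 ≤ k2 x := by
    intro x hx
    have h1 : l1 x ≤ m0 := by
      have := l1_le_nsq x
      have h2 : (l1 x : ℝ) ≤ m0 := this.trans (hx.trans hm0)
      exact_mod_cast h2
    rw [hk2]
    dsimp only
    rw [hM, ← div_eq_mul_inv, one_le_div (by positivity)]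
    exact pow_le_pow_right₀ (by linarith) h1
  have hk2sub : ∀ x, x ≠ 0 → k2 x ≤ PP k2 x := by
    intro x hx
    obtain ⟨e, he⟩ := l1_step x hx
    refine le_trans ?_ (PP_ge_single (fun x => (hk2n x).le) x e)
    rw [hk2]
    dsimp only
    rw [← he, pow_succ, ← hA]
    apply le_of_eq
    have : A ^ (l1 (x + uvec e)) ≠ 0 := by positivity
    field_simp
  have hk1sub : ∀ x, n1 ≤ nsq x → k1 x ≤ PP k1 x := by
    intro x hx
    have h1 : n0 ≤ nsq x := by linarith
    have h2 := hsub x h1
    have h3 : k1 x = Pool.Agent.H61.BD.kk d (-b) x := by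
      rw [hk1]
      dsimp only
      rw [if_pos h1]
      rfl
    have h4 : PP k1 x = PP (Pool.Agent.H61.BD.kk d (-b)) x := by
      unfold PP
      congr 1
      apply Finset.sum_congr rfl
      intro e _
      have h5 := nsq_nb x e
      rw [hk1]
      dsimp only
      rw [if_pos (by linarith)]
      rfl
    rw [h3, h4]
    exact h2
  have hmax1 : ∀ x, k1 x ≤ max (k1 x) (k2 x) := fun x => le_max_left _ _
  have hmax2 : ∀ x, k2 x ≤ max (k1 x) (k2 x) := fun x => le_max_right _ _
  have hE := Real.exp_pos (bt d)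
  have hf : (1 : ℝ) ≤ (d.factorial : ℝ) := by exact_mod_cast Nat.one_le_iff_ne_zero.2 (Nat.factorial_ne_zero d)
  refine ⟨M * d.factorial + 2 * bt d * Real.exp (bt d) * b, fun x => max (k1 x) (k2 x), ?_, ?_, ?_,
    ?_, ?_, ?_⟩
  · have h1 : 1 ≤ M * d.factorial := by nlinarith
    have h2 : 0 ≤ 2 * bt d * Real.exp (bt d) * b := by positivity
    linarith
  · intro x
    exact le_max_of_le_left (hk1n x)
  · intro x
    have h1 : M ≤ M * d.factorial := by nlinarith
    have h2 : 0 ≤ 2 * bt d * Real.exp (bt d) * b := by positivity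
    apply max_le
    · linarith [hk1le x]
    · linarith [hk2le x]
  · intro x hx
    have p1 : PP k1 x ≤ PP (fun x => max (k1 x) (k2 x)) x := Pool.Agent.H61.BD.PP_le hmax1 x
    have p2 : PP k2 x ≤ PP (fun x => max (k1 x) (k2 x)) x := Pool.Agent.H61.BD.PP_le hmax2 x
    have q2 := hk2sub x hx
    by_cases h : n1 ≤ nsq x
    · exact max_le ((hk1sub x h).trans p1) (q2.trans p2)
    · push Not at h
      have h1 := hk2big x h.le
      exact max_le ((hk1le x).trans (h1.trans (q2.trans p2))) (q2.trans p2)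
  · intro x hx
    by_cases h : n0 ≤ nsq x
    · apply le_max_of_le_left
      rw [hk1]
      dsimp only
      rw [if_pos h]
      exact Real.rpow_le_rpow_of_nonpos (by linarith) (by linarith) (by linarith)
    · push Not at h
      apply le_max_of_le_right
      have h1 := hk2big x (by linarith)
      refine le_trans ?_ h1
      exact Real.rpow_le_one_of_one_le_of_nonpos (one_le_nsq x hx) (by linarith)
  · intro x hx
    have hs1 := one_le_nsq x hx
    have hs0 : 0 < nsq x := by linarith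
    have r1 : 0 < nsq x ^ (-bt d) := Real.rpow_pos_of_pos hs0 _
    have r2 : 0 < nsq x ^ (-bt d - 1) := Real.rpow_pos_of_pos hs0 _
    have h1 : 0 ≤ M * d.factorial := by positivity
    have h2 : 0 ≤ 2 * bt d * Real.exp (bt d) * b := by positivity
    have h1' : 0 ≤ M * d.factorial * nsq x ^ (-bt d - 1) := by positivity
    have h2' : 0 ≤ 2 * bt d * Real.exp (bt d) * b * nsq x ^ (-bt d - 1) := by positivity
    rw [add_mul]
    apply max_le
    · rw [hk1]
      dsimp only
      split_ifs with h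
      · have := pow_bound (s := nsq x) hβ hb (by linarith)
        linarith
      · linarith
    · have h3 : k2 x ≤ M * d.factorial * nsq x ^ (-bt d - 1) := by
        rw [hk2]
        dsimp only
        rw [mul_assoc]
        apply mul_le_mul_of_nonneg_left _ (by linarith)
        have e1 : nsq x ^ (-bt d - 1) = (nsq x ^ (bt d + 1))⁻¹ := by
          rw [← Real.rpow_neg hs0.le]
          congr 1
          ring
        rw [e1, inv_eq_one_div, ← div_eq_mul_inv, div_le_div_iff₀ (by positivity)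
          (Real.rpow_pos_of_pos hs0 _), one_mul]
        have e2 : nsq x ^ (bt d + 1) ≤ (l1 x : ℝ) ^ d := by
          calc nsq x ^ (bt d + 1) ≤ ((l1 x : ℝ) ^ 2) ^ (bt d + 1) :=
                Real.rpow_le_rpow hs0.le (Pool.Agent.H61.BD.nsq_le_l1 x) (by linarith)
            _ = (l1 x : ℝ) ^ d := by
                rw [← Real.rpow_natCast (l1 x : ℝ) 2, ← Real.rpow_mul (Nat.cast_nonneg _),
                  ← Real.rpow_natCast (l1 x : ℝ) d]
                congr 1
                unfold bt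
                push_cast
                ring
        have e3 : (l1 x : ℝ) ^ d / d.factorial ≤ Real.exp (l1 x : ℝ) :=
          Real.pow_div_factorial_le_exp _ (Nat.cast_nonneg _) d
        have e4 : Real.exp (l1 x : ℝ) ≤ A ^ (l1 x) := by
          have : Real.exp (l1 x : ℝ) = Real.exp 1 ^ (l1 x) := by
            rw [← Real.exp_nat_mul, mul_one]
          rw [this]
          apply pow_le_pow_left₀ (Real.exp_pos 1).le
          have := Real.exp_one_lt_d9
          linarith
        rw [div_le_iff₀ (by positivity)] at e3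
        calc nsq x ^ (bt d + 1) ≤ (l1 x : ℝ) ^ d := e2
          _ ≤ Real.exp (l1 x : ℝ) * d.factorial := e3
          _ ≤ A ^ (l1 x) * d.factorial := mul_le_mul_of_nonneg_right e4 (by linarith)
          _ = d.factorial * A ^ (l1 x) := mul_comm _ _
      linarith

end Pool.Agent.H90.BD
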